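import Pool.Agent.Run7.h245.DI.Iface
import Pool.Agent.Run7.h711.SR.CLF

/-!
# Piece SZE of project DI (helper245), by helper594
-/

set_option autoImplicit false
set_option linter.all false

open Polynomial IsDedekindDomain Matrix NumberField
open scoped Classical

namespace Pool.Agent.Run7.h594.DI

open Pool.Agent.N783.PF
open Pool.Agent.Run7.h245.SR Pool.Agent.Run7.h245.DI
open Pool.Agent.N874.PP (Ev Sq1 U0)
open Pool.Agent.N874.JM (LocF)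
open Pool.Agent.N783.PQ (LocIm)
open Pool.Agent.Run7.h711.SR (EvN cls rel)

theorem unit_q (ε : (𝓞 ℚ)ˣ) : ((ε : 𝓞 ℚ) : ℚ) = 1 ∨ ((ε : 𝓞 ℚ) : ℚ) = -1 := by
  have h1 : IsUnit (Rat.ringOfIntegersEquiv (ε : 𝓞 ℚ)) := ε.isUnit.map _
  have h2 : ((Rat.ringOfIntegersEquiv (ε : 𝓞 ℚ) : ℤ) : ℚ) = ((ε : 𝓞 ℚ) : ℚ) :=
    Rat.ringOfIntegersEquiv_apply_coe (ε : 𝓞 ℚ)
  rcases Int.isUnit_iff.1 h1 with h | h
  · left
    rw [h] at h2
    rw [← h2]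
    simp
  · right
    rw [h] at h2
    rw [← h2]
    simp

theorem cls_sub : Subsingleton (ClassGroup (𝓞 ℚ)) := by
  have h1 : NumberField.classNumber ℚ = 1 := Rat.classNumber_eq
  rw [NumberField.classNumber, Fintype.card_eq_one_iff] at h1
  obtain ⟨x, hx⟩ := h1
  exact ⟨fun a b => (hx a).trans (hx b).symm⟩

/-- rational numbers with even valuations and the same sign -/
theorem sq_of_ev {y y' : ℚ} (h : EvN y) (h' : EvN y') (hs : 0 < y * y') : IsSquare (y * y') := by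
  haveI := cls_sub
  obtain ⟨c, ε, hc, he⟩ := rel h h' (Subsingleton.elim _ _)
  rcases unit_q ε with h1 | h1
  · rw [h1] at he
    refine ⟨y * c, ?_⟩
    rw [he]
    ring
  · exfalso
    rw [h1] at he
    rw [he] at hs
    have h2 : y * (y * c ^ 2 * -1) = -(y * c) ^ 2 := by ring
    rw [h2] at hs
    have h3 := sq_nonneg (y * c)
    linarith

theorem half {α : Type} (s : Finset α) (f : α → Fin 2) (n : ℕ) (h : 2 ^ (n + 1) ≤ s.card) :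
    ∃ y, 2 ^ n ≤ (s.filter fun x => f x = y).card := by
  by_contra hcon
  push Not at hcon
  have h0 := hcon 0
  have h1 := hcon 1
  have h2 : (s.filter fun x => f x = 0).card + (s.filter fun x => f x = 1).card = s.card := by
    have h3 := Finset.card_filter_add_card_filter_not (s := s) (fun x => f x = 0)
    rw [← h3]
    congr 2
    ext x
    simp only [Finset.mem_filter]
    have : f x = 1 ↔ ¬ f x = 0 := by
      generalize f x = z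
      revert z
      decide
    rw [this]
  rw [pow_succ] at h
  omega

theorem odd_notMem' {L : Type} [Field L] [NumberField L] {𝔓 : HeightOneSpectrum (𝓞 L)}
    (h2 : (2 : 𝓞 L) ∈ 𝔓.asIdeal) {b : ℕ} (hb : Odd b) : (b : 𝓞 L) ∉ 𝔓.asIdeal := by
  intro h
  obtain ⟨j, rfl⟩ := hb
  apply 𝔓.isPrime.ne_top
  rw [Ideal.eq_top_iff_one]
  have h1 : (2 : 𝓞 L) * (j : 𝓞 L) ∈ 𝔓.asIdeal := Ideal.mul_mem_right _ _ h2
  have h3 := Ideal.sub_mem _ h h1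
  have h4 : (((2 * j + 1 : ℕ)) : 𝓞 L) - 2 * (j : 𝓞 L) = 1 := by push_cast; ring
  rwa [h4] at h3

theorem exists_poly' {F L : Type} [Field F] [NumberField F] [Field L] [NumberField L]
    [Algebra F L] {g : ℕ} {f : (𝓞 F)[X]} {θ : L} (hG : IsGen g f θ) (x : L) :
    ∃ h₀ : F[X], aeval θ h₀ = x := by
  obtain ⟨c, hc⟩ := hG.gen x
  refine ⟨∑ i : Fin (2 * g + 1), C (c i) * X ^ (i : ℕ), ?_⟩
  rw [hc, map_sum]
  refine Finset.sum_congr rfl fun i _ => ?_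
  rw [map_mul, aeval_C, map_pow, aeval_X]

/-- multiply by a fixed element: products of different elements stay nonsquare -/
theorem mul_nsq {L : Type} [Field L] {X : Finset L} {x₀ : L} (h0 : x₀ ≠ 0)
    (h : ∀ x ∈ X, ∀ y ∈ X, x ≠ y → ¬ IsSquare (x * y)) :
    ∀ x ∈ X.image (fun x => x * x₀), ∀ y ∈ X.image (fun x => x * x₀), x ≠ y →
      ¬ IsSquare (x * y) := by
  intro x hx y hy hne
  obtain ⟨x', hx', rfl⟩ := Finset.mem_image.1 hx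
  obtain ⟨y', hy', rfl⟩ := Finset.mem_image.1 hy
  have hne' : x' ≠ y' := fun h => hne (by rw [h])
  intro hsq
  refine h x' hx' y' hy' hne' ?_
  obtain ⟨s, hs⟩ := hsq
  refine ⟨s / x₀, ?_⟩
  field_simp
  linear_combination hs

theorem sze (h1 : S_UNX) (h2 : S_RE2) (h3 : S_TW2) (h4 : S_NEV) (h5 : S_EXQ) : S_SZE := by
  intro L _ _ _ f θ W S 𝔮 r P hG hSq hf2 hf1 hf0 hgood hcg
  have hex : ∀ q : ℕ, ∃ 𝔔 : HeightOneSpectrum (𝓞 L), q ∈ S → Ov (𝔮 q) 𝔔 ∧ 𝔔.valuation L θ = 1 := by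
    intro q
    by_cases hq : q ∈ S
    · obtain ⟨𝔓₁, 𝔓₂, _, a2, _, a4, _⟩ := h5 1 W ℚ L f θ S 𝔮 r P le_rfl hG hSq hgood q hq (hcg q hq)
      exact ⟨𝔓₂, fun _ => ⟨a2, a4⟩⟩
    · obtain ⟨p, hp0, hp⟩ := Ring.not_isField_iff_exists_prime.1 (RingOfIntegers.not_isField L)
      exact ⟨⟨p, hp, hp0⟩, fun h => absurd h hq⟩
  choose Q hQ using hex
  have hqQ : ∀ q ∈ S, (q : 𝓞 L) ∈ (Q q).asIdeal := by
    intro q hq
    have a1 := (hQ q hq).1 _ (hgood q hq).2.2.2.2.2.2.1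
    rwa [map_natCast] at a1
  have hQinj : Set.InjOn Q S := by
    intro q hq q' hq' h
    by_contra hne
    have hcop : Nat.Coprime q q' := (Nat.coprime_primes (hgood q hq).1 (hgood q' hq').1).2 hne
    have a1 := hqQ q hq
    have a2 := hqQ q' hq'
    rw [← h] at a2
    apply (Q q).isPrime.ne_top
    rw [Ideal.eq_top_iff_one]
    have a3 : IsCoprime (q : ℤ) (q' : ℤ) := Nat.isCoprime_iff_coprime.2 hcop
    obtain ⟨u, v, huv⟩ := a3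
    have a4 : ((u * q + v * q' : ℤ) : 𝓞 L) = 1 := by rw [huv]; simp
    rw [← a4]
    push_cast
    exact Ideal.add_mem _ (Ideal.mul_mem_left _ _ a1) (Ideal.mul_mem_left _ _ a2)
  obtain ⟨X₀, hX₀c, hX₀1, hX₀2⟩ := h1 L (S.image Q)
  rw [Finset.card_image_of_injOn hQinj] at hX₀c
  have hval : ∀ x ∈ X₀, ∀ 𝔓 : HeightOneSpectrum (𝓞 L),
      (∀ q ∈ S, Ov (𝔮 q) 𝔓 → 𝔓.valuation L θ ≠ 1) → 𝔓.valuation L x = 1 := by
    intro x hx 𝔓 h
    refine (hX₀1 x hx).2 𝔓 ?_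
    intro hmem
    obtain ⟨q, hq, rfl⟩ := Finset.mem_image.1 hmem
    exact h q hq (hQ q hq).1 (hQ q hq).2
  have hval2 : ∀ x ∈ X₀, ∀ 𝔓 : HeightOneSpectrum (𝓞 L), (2 : 𝓞 L) ∈ 𝔓.asIdeal →
      𝔓.valuation L x = 1 := by
    intro x hx 𝔓 h
    refine (hX₀1 x hx).2 𝔓 ?_
    intro hmem
    obtain ⟨q, hq, rfl⟩ := Finset.mem_image.1 hmem
    refine odd_notMem' h ?_ (hqQ q hq)
    have := (hgood q hq).2.2.2.1
    rw [Nat.odd_iff]
    omega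
  have hev : ∀ x ∈ X₀, EvN (Algebra.norm ℚ x) := fun x hx =>
    ⟨Algebra.norm_ne_zero_iff.2 (hX₀1 x hx).1,
      h4 1 W ℚ L f θ S 𝔮 r P le_rfl hG hSq hgood hcg x (hX₀1 x hx).1 (hval x hx)⟩
  obtain ⟨hrk, κ₁, hκ₁0, hκ₁⟩ := h2 L f θ hG hf2
  obtain ⟨κ₂, hκ₂⟩ := h3 L f θ hG hf2 hf1 hf0
  set R := NumberField.Units.rank L with hR
  -- the sign of the norm
  obtain ⟨z, hz⟩ := half X₀ (fun x => if 0 < Algebra.norm ℚ x then 0 else 1) (S.card + R)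
    (by rw [hX₀c])
  set X₁ := X₀.filter fun x => (if 0 < Algebra.norm ℚ x then (0 : Fin 2) else 1) = z with hX₁
  have hX₁s : X₁ ⊆ X₀ := Finset.filter_subset _ _
  have hX₁sg : ∀ x ∈ X₁, ∀ y ∈ X₁, IsSquare (Algebra.norm ℚ x * Algebra.norm ℚ y) := by
    intro x hx y hy
    have e1 := (Finset.mem_filter.1 hx).2
    have e2 := (Finset.mem_filter.1 hy).2
    have hx0 := (hev x (hX₁s hx)).ne
    have hy0 := (hev y (hX₁s hy)).ne
    refine sq_of_ev (hev x (hX₁s hx)) (hev y (hX₁s hy)) ?_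
    rw [← e2] at e1
    by_cases hp : 0 < Algebra.norm ℚ x
    · by_cases hq : 0 < Algebra.norm ℚ y
      · exact mul_pos hp hq
      · rw [if_pos hp, if_neg hq] at e1
        exact absurd e1 (by decide)
    · by_cases hq : 0 < Algebra.norm ℚ y
      · rw [if_neg hp, if_pos hq] at e1
        exact absurd e1 (by decide)
      · exact mul_pos_of_neg_of_neg (lt_of_le_of_ne (not_lt.1 hp) hx0)
          (lt_of_le_of_ne (not_lt.1 hq) hy0)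
  have hX₁ne : X₁.Nonempty := by
    rw [← Finset.card_pos]
    exact lt_of_lt_of_le (by positivity) hz
  obtain ⟨x₁, hx₁⟩ := hX₁ne
  have hx₁0 : x₁ ≠ 0 := (hX₀1 x₁ (hX₁s hx₁)).1
  have hinj₁ : Function.Injective fun x : L => x * x₁ := mul_left_injective₀ hx₁0
  set Y := X₁.image fun x => x * x₁ with hY
  have hYc : 2 ^ (S.card + R) ≤ Y.card := by
    rw [hY, Finset.card_image_of_injective _ hinj₁]
    exact hz
  have hYn : ∀ x ∈ Y, ∀ y ∈ Y, x ≠ y → ¬ IsSquare (x * y) :=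
    mul_nsq hx₁0 fun x hx y hy hne => hX₀2 x (hX₁s hx) y (hX₁s hy) hne
  have hY1 : ∀ y ∈ Y, y ≠ 0 ∧ IsSquare (Algebra.norm ℚ y) ∧
      (∀ 𝔓 : HeightOneSpectrum (𝓞 L), (∀ q ∈ S, Ov (𝔮 q) 𝔓 → 𝔓.valuation L θ ≠ 1) →
        𝔓.valuation L y = 1) ∧
      (∀ 𝔓 : HeightOneSpectrum (𝓞 L), (2 : 𝓞 L) ∈ 𝔓.asIdeal → 𝔓.valuation L y = 1) := by
    intro y hy
    obtain ⟨x, hx, rfl⟩ := Finset.mem_image.1 hy
    refine ⟨mul_ne_zero (hX₀1 x (hX₁s hx)).1 hx₁0, ?_, ?_, ?_⟩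
    · rw [map_mul]
      exact hX₁sg x hx x₁ hx₁
    · intro 𝔓 h
      rw [map_mul, hval x (hX₁s hx) 𝔓 h, hval x₁ (hX₁s hx₁) 𝔓 h, one_mul]
    · intro 𝔓 h
      rw [map_mul, hval2 x (hX₁s hx) 𝔓 h, hval2 x₁ (hX₁s hx₁) 𝔓 h, one_mul]
  -- the real place
  obtain ⟨Y₂, hY₂s, hY₂c, hY₂κ⟩ : ∃ Y₂ ⊆ Y, 2 ^ (S.card + 1) ≤ Y₂.card ∧
      ∀ x ∈ Y₂, ∀ y ∈ Y₂, κ₁ x = κ₁ y := by
    rcases hrk with h | h
    · refine ⟨Y, Finset.Subset.refl _, ?_, fun x _ y _ => ?_⟩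
      · rw [h] at hYc
        exact hYc
      · rw [hκ₁0 h, hκ₁0 h]
    · rw [h] at hYc
      obtain ⟨y, hy⟩ := half Y κ₁ (S.card + 1) hYc
      refine ⟨Y.filter fun x => κ₁ x = y, Finset.filter_subset _ _, hy, fun a ha b hb => ?_⟩
      rw [(Finset.mem_filter.1 ha).2, (Finset.mem_filter.1 hb).2]
  -- the place 2
  obtain ⟨z₃, hz₃⟩ := half Y₂ κ₂ S.card hY₂c
  set Y₃ := Y₂.filter fun x => κ₂ x = z₃ with hY₃
  have hY₃s : Y₃ ⊆ Y₂ := Finset.filter_subset _ _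
  have hY₃ne : Y₃.Nonempty := by
    rw [← Finset.card_pos]
    exact lt_of_lt_of_le (by positivity) hz₃
  obtain ⟨y₀, hy₀⟩ := hY₃ne
  obtain ⟨hy₀0, hy₀n, hy₀v, hy₀2⟩ := hY1 y₀ (hY₂s (hY₃s hy₀))
  have hinj₂ : Function.Injective fun x : L => x * y₀ := mul_left_injective₀ hy₀0
  refine ⟨Y₃.image fun x => x * y₀, ?_, ?_, ?_⟩
  · rw [Finset.card_image_of_injective _ hinj₂]
    exact hz₃
  · exact mul_nsq hy₀0 fun x hx y hy hne => hYn x (hY₂s (hY₃s hx)) y (hY₂s (hY₃s hy)) hne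
  · intro x hx
    obtain ⟨y, hy, rfl⟩ := Finset.mem_image.1 hx
    obtain ⟨hy0, hyn, hyv, hy2⟩ := hY1 y (hY₂s (hY₃s hy))
    refine ⟨mul_ne_zero hy0 hy₀0, ?_, ?_, ?_⟩
    · rw [map_mul]
      exact hyn.mul hy₀n
    · intro 𝔓 h𝔓
      refine ⟨1, ?_⟩
      rw [map_mul, hyv 𝔓 h𝔓, hy₀v 𝔓 h𝔓, map_one]
      simp
    · obtain ⟨h₀, hh₀⟩ := exists_poly' hG (y * y₀)
      refine ⟨h₀, hh₀, ?_, ?_⟩
      · intro w hw
        refine hκ₂ y y₀ hy0 hy₀0 hy2 hy₀2 hyn hy₀n ?_ h₀ hh₀ w hw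
        rw [(Finset.mem_filter.1 hy).2, (Finset.mem_filter.1 hy₀).2]
      · intro σ
        exact hκ₁ y y₀ hy0 hy₀0 hyn hy₀n (hY₂κ y (hY₃s hy) y₀ (hY₃s hy₀)) h₀ hh₀ σ

end Pool.Agent.Run7.h594.DI
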