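import Pool.Agent.Run7.h594.DI.TW2b

/-!
# Piece TW2 of project DI (helper245), by helper594
-/

set_option autoImplicit false
set_option linter.all false

open Polynomial IsDedekindDomain Matrix NumberField
open scoped Classical

namespace Pool.Agent.Run7.h594.DI

open Pool.Agent.N783.PF
open Pool.Agent.Run7.h245.DI (m8 n8 K8)
open Pool.Agent.Run7.h228.SR (io io_mem)
open Pool.Agent.N874.JM (LocF)

/-- `1 + 8 k` is a square in the completion at a prime over `2` -/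
theorem sq8' (w : HeightOneSpectrum (𝓞 ℚ)) (h2 : (2 : 𝓞 ℚ) ∈ w.asIdeal) (k : 𝓞 ℚ) :
    ∃ δ : w.adicCompletion ℚ, algebraMap ℚ (w.adicCompletion ℚ) ((1 + 8 * k : 𝓞 ℚ) : ℚ) = δ ^ 2 := by
  haveI := (_root_.Run7.h576.SR.HEN.hen ℚ w).2
  have h2m : (2 : w.adicCompletionIntegers ℚ) ∈
      IsLocalRing.maximalIdeal (w.adicCompletionIntegers ℚ) := by
    have := io_mem w h2
    rwa [map_ofNat] at this
  have hmon : (X ^ 2 + X + C (-(2 * io w k)) : (w.adicCompletionIntegers ℚ)[X]).Monic := by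
    monicity!
  obtain ⟨y, hy, -⟩ := HenselianLocalRing.is_henselian _ hmon 0 (by
    simp only [eval_add, eval_pow, eval_X, eval_C]
    rw [zero_pow two_ne_zero, zero_add, zero_add, Ideal.neg_mem_iff]
    exact Ideal.mul_mem_right _ _ h2m) (by simp)
  have hy1 : y ^ 2 + y - 2 * io w k = 0 := by
    have h1 : (X ^ 2 + X + C (-(2 * io w k)) : (w.adicCompletionIntegers ℚ)[X]).eval y = 0 := hy
    simp only [eval_add, eval_pow, eval_X, eval_C] at h1
    linear_combination h1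
  refine ⟨((1 + 2 * y : w.adicCompletionIntegers ℚ) : w.adicCompletion ℚ), ?_⟩
  have h8 : ((1 + 2 * y) ^ 2 : w.adicCompletionIntegers ℚ) = io w (1 + 8 * k) := by
    rw [map_add, map_one, map_mul, map_ofNat]
    linear_combination 4 * hy1
  have h9 := congrArg (fun t : w.adicCompletionIntegers ℚ => (t : w.adicCompletion ℚ)) h8
  exact h9.symm

section main

variable {L : Type} [Field L] [NumberField L] [Algebra ℚ L] {f : (𝓞 ℚ)[X]} {θ : L}

theorem el_cong (u v : Fin 3 → 𝓞 ℚ) (h : tr ro u = tr ro v) :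
    ∃ c : Fin 3 → 𝓞 ℚ, el θ u = el θ v + 8 * el θ c := by
  unfold tr at h
  rw [Prod.mk.injEq, Prod.mk.injEq] at h
  obtain ⟨h0, h1, h2⟩ := h
  obtain ⟨c0, hc0⟩ := ro_zero (a := u 0 - v 0) (by rw [map_sub, h0, sub_self])
  obtain ⟨c1, hc1⟩ := ro_zero (a := u 1 - v 1) (by rw [map_sub, h1, sub_self])
  obtain ⟨c2, hc2⟩ := ro_zero (a := u 2 - v 2) (by rw [map_sub, h2, sub_self])
  refine ⟨![c0, c1, c2], ?_⟩
  have e0 : u 0 = v 0 + 8 * c0 := by linear_combination hc0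
  have e1 : u 1 = v 1 + 8 * c1 := by linear_combination hc1
  have e2 : u 2 = v 2 + 8 * c2 := by linear_combination hc2
  unfold el
  rw [e0, e1, e2]
  simp only [map_add, map_mul, map_ofNat, Matrix.cons_val_zero, Matrix.cons_val_one,
    Matrix.cons_val]
  ring

theorem tw2 (h1 : Pool.Agent.Run7.h245.DI.S_TWF) (h2 : Pool.Agent.Run7.h245.DI.S_SQE) :
    Pool.Agent.Run7.h245.DI.S_TW2 := by
  intro L _ _ _ f θ hG hf2 hA hB
  haveI hnt : Nontrivial (ZMod 8) := ⟨⟨0, 1, by decide⟩⟩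
  have hθ := root3 hG hf2
  have hA1 := ro_one_of_dvd hA
  have hB1 := ro_one_of_dvd hB
  have hinj : Function.Injective (algebraMap (𝓞 ℚ) L) := by
    rw [IsScalarTower.algebraMap_eq (𝓞 ℚ) ℚ L]
    exact (algebraMap ℚ L).injective.comp (IsFractionRing.injective (𝓞 ℚ) ℚ)
  let P : L → Prop := fun x => ∃ (a : Fin 3 → 𝓞 ℚ) (m : 𝓞 ℚ), IsUnit (ro m) ∧
    (algebraMap (𝓞 ℚ) L m) ^ 2 * x = el θ a ∧ n8 (tr ro a) = 1
  let κ : L → Fin 2 := fun x => if h : P x then (if K8 (tr ro h.choose) then 0 else 1) else 0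
  refine ⟨κ, fun x y hx0 hy0 hx hy hNx hNy hκ h₀ hh₀ w hw => ?_⟩
  have hPx : P x := inv8 hG hf2 hA hB x hx0 hx hNx
  have hPy : P y := inv8 hG hf2 hA hB y hy0 hy hNy
  have hK : K8 (tr ro hPx.choose) ↔ K8 (tr ro hPy.choose) := by
    have e1 : κ x = if K8 (tr ro hPx.choose) then 0 else 1 := dif_pos hPx
    have e2 : κ y = if K8 (tr ro hPy.choose) then 0 else 1 := dif_pos hPy
    rw [e1, e2] at hκ
    by_cases c1 : K8 (tr ro hPx.choose)
    · by_cases c2 : K8 (tr ro hPy.choose)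
      · exact ⟨fun _ => c2, fun _ => c1⟩
      · rw [if_pos c1, if_neg c2] at hκ
        exact absurd hκ (by decide)
    · by_cases c2 : K8 (tr ro hPy.choose)
      · rw [if_neg c1, if_pos c2] at hκ
        exact absurd hκ (by decide)
      · exact ⟨fun h => absurd h c1, fun h => absurd h c2⟩
  obtain ⟨m, hm, hma, hna⟩ := hPx.choose_spec
  obtain ⟨m', hm', hmb, hnb⟩ := hPy.choose_spec
  obtain ⟨s8, hs8, hor⟩ := h1 _ _ hna hnb hK
  generalize hPx.choose = a at *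
  generalize hPy.choose = b at *
  have hlift : ∃ s : Fin 3 → 𝓞 ℚ, tr ro s = s8 := by
    obtain ⟨s0, h0⟩ := ro_surj s8.1
    obtain ⟨s1, h1'⟩ := ro_surj s8.2.1
    obtain ⟨s2, h2'⟩ := ro_surj s8.2.2
    exact ⟨![s0, s1, s2], by simp [tr, h0, h1', h2']⟩
  obtain ⟨s, hs⟩ := hlift
  have hsu : IsUnit (ro (tM (f.coeff 1) (f.coeff 0) s).det) := by
    rw [n8_tr ro hA1 hB1, hs]
    exact hs8
  have hvs := val_el hG hf2 s hsu
  have hsep := rd_sep hG hf2 hB hw
  have hm0 : algebraMap (𝓞 ℚ) L m ≠ 0 := by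
    intro h0
    rw [map_eq_zero_iff _ hinj] at h0
    rw [h0, map_zero] at hm
    exact not_isUnit_zero hm
  have hm0' : algebraMap (𝓞 ℚ) L m' ≠ 0 := by
    intro h0
    rw [map_eq_zero_iff _ hinj] at h0
    rw [h0, map_zero] at hm'
    exact not_isUnit_zero hm'
  have h2P : ∀ 𝔓 : HeightOneSpectrum (𝓞 L), Ov w.asIdeal 𝔓 → (2 : 𝓞 L) ∈ 𝔓.asIdeal := by
    intro 𝔓 hov
    have := hov 2 hw
    rwa [map_ofNat] at this
  -- `el s ≠ 0`
  have hs0 : el θ s ≠ 0 := by
    intro h0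
    obtain ⟨t, ht⟩ := tm_adj (f.coeff 1) (f.coeff 0) s
    have e1 := el_tm (L := L) hθ s t
    rw [ht, h0, zero_mul] at e1
    have e3 : el θ ![(tM (f.coeff 1) (f.coeff 0) s).det, 0, 0] =
        algebraMap (𝓞 ℚ) L (tM (f.coeff 1) (f.coeff 0) s).det := by
      unfold el
      simp
    rw [e3, map_eq_zero_iff _ hinj] at e1
    rw [e1, map_zero] at hsu
    exact not_isUnit_zero hsu
  have hab : el θ (tm (f.coeff 1) (f.coeff 0) a b) =
      (algebraMap (𝓞 ℚ) L m * algebraMap (𝓞 ℚ) L m') ^ 2 * (x * y) := by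
    rw [el_tm hθ, ← hma, ← hmb]
    ring
  rcases hor with hor | hor
  · have e1 : tr ro (tm (f.coeff 1) (f.coeff 0) a b) = tr ro (tm (f.coeff 1) (f.coeff 0) s s) := by
      rw [tr_tm ro hA1 hB1, tr_tm ro hA1 hB1, hs]
      exact hor
    obtain ⟨c, hc⟩ := el_cong (θ := θ) _ _ e1
    rw [hab, el_tm hθ] at hc
    obtain ⟨t, ht⟩ := h2 1 ℚ L f θ le_rfl hG w hw hsep h₀
      (el θ s / (algebraMap (𝓞 ℚ) L m * algebraMap (𝓞 ℚ) L m')) (el θ c / (el θ s) ^ 2) (by
        rw [hh₀]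
        have e3 : (el θ s) ^ 2 * (1 + 8 * (el θ c / (el θ s) ^ 2)) =
            el θ s * el θ s + 8 * el θ c := by
          field_simp
        rw [div_pow, div_mul_eq_mul_div, e3, ← hc]
        field_simp) (by
        intro 𝔓 hov
        rw [map_div₀, map_pow, hvs 𝔓 (h2P 𝔓 hov), one_pow, div_one]
        exact val_el_le hG c 𝔓)
    refine ⟨[], t, by simp, ?_⟩
    simpa using ht
  · have e1 : tr ro (tm (f.coeff 1) (f.coeff 0) a b) =
        tr ro (tm (f.coeff 1) (f.coeff 0) ![0, -1, 0] (tm (f.coeff 1) (f.coeff 0) s s)) := by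
      rw [tr_tm ro hA1 hB1, tr_tm ro hA1 hB1, tr_tm ro hA1 hB1, hs]
      have e2 : tr ro (![0, -1, 0] : Fin 3 → 𝓞 ℚ) = (0, -1, 0) := by
        simp [tr]
      rw [e2]
      exact hor
    obtain ⟨c, hc⟩ := el_cong (θ := θ) _ _ e1
    have eθ : el θ (![0, -1, 0] : Fin 3 → 𝓞 ℚ) = -θ := by
      unfold el
      simp
    rw [hab, el_tm hθ, el_tm hθ, eθ] at hc
    -- `θ` is a unit at `2`
    have hθu : IsUnit (ro (tM (f.coeff 1) (f.coeff 0) (![0, 1, 0] : Fin 3 → 𝓞 ℚ)).det) := by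
      have e3 : (tM (f.coeff 1) (f.coeff 0) (![0, 1, 0] : Fin 3 → 𝓞 ℚ)).det = -f.coeff 0 := by
        simp [tM, Matrix.det_fin_three]
      rw [e3, map_neg, hB1]
      exact isUnit_one.neg
    have hvθ := val_el hG hf2 _ hθu
    have eθ' : el θ (![0, 1, 0] : Fin 3 → 𝓞 ℚ) = θ := by
      unfold el
      simp
    rw [eθ'] at hvθ
    obtain ⟨k, hk⟩ := hB
    have hf0 : f.coeff 0 ≠ 0 := by
      intro h0
      rw [h0, map_zero] at hB1
      exact absurd hB1 (by decide)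
    have hθ0 : θ ≠ 0 := by
      intro h0
      rw [h0] at hθ
      simp only [ne_eq, OfNat.ofNat_ne_zero, not_false_eq_true, zero_pow, mul_zero, zero_add] at hθ
      exact hf0 ((map_eq_zero_iff _ hinj).1 hθ)
    obtain ⟨t, ht⟩ := h2 1 ℚ L f θ le_rfl hG w hw hsep (h₀ * (-X))
      (θ * el θ s / (algebraMap (𝓞 ℚ) L m * algebraMap (𝓞 ℚ) L m')) (-(el θ c / (θ * (el θ s) ^ 2)))
      (by
        rw [map_mul, hh₀, map_neg, aeval_X]
        have e3 : (θ * el θ s) ^ 2 * (1 + 8 * -(el θ c / (θ * (el θ s) ^ 2))) =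
            -θ * (-θ * (el θ s * el θ s) + 8 * el θ c) := by
          field_simp
          ring
        rw [div_pow, div_mul_eq_mul_div, e3, ← hc]
        field_simp) (by
        intro 𝔓 hov
        rw [Valuation.map_neg, map_div₀, map_mul, map_pow, hvs 𝔓 (h2P 𝔓 hov),
          hvθ 𝔓 (h2P 𝔓 hov), one_pow, one_mul, div_one]
        exact val_el_le hG c 𝔓)
    obtain ⟨r, hr⟩ := sq8' w hw (2 * k)
    set pf : (w.adicCompletion ℚ)[X] := (fF f).map (algebraMap ℚ (w.adicCompletion ℚ)) with hpf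
    have hcoef : pf.coeff 0 = r ^ 2 := by
      rw [hpf, coeff_map, coeff_map, ← hr]
      congr 1
      have e4 : f.coeff 0 = 1 + 8 * (2 * k) := by linear_combination hk
      rw [e4]
    have hr0 : r ^ 2 ≠ 0 := by
      rw [← hcoef, hpf, coeff_map, coeff_map]
      intro h0
      rw [map_eq_zero] at h0
      exact hf0 ((map_eq_zero_iff _ (IsFractionRing.injective (𝓞 ℚ) ℚ)).1 h0)
    refine ⟨[(X, C r)], t, ?_, ?_⟩
    · intro p hp
      rw [List.mem_singleton] at hp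
      subst hp
      refine ⟨monic_X, ?_, ?_⟩
      · refine ⟨-(divX pf) * C (r ^ 2)⁻¹, C (r ^ 2)⁻¹, ?_⟩
        have e5 : divX pf * X + C (r ^ 2) = pf := by
          rw [← hcoef]
          exact divX_mul_X_add pf
        have e6 : C (r ^ 2)⁻¹ * C (r ^ 2) = (1 : (w.adicCompletion ℚ)[X]) := by
          rw [← C_mul, inv_mul_cancel₀ hr0, C_1]
        change -(divX pf) * C (r ^ 2)⁻¹ * X + C (r ^ 2)⁻¹ * pf = 1
        linear_combination e6 - C (r ^ 2)⁻¹ * e5
      · change X ∣ (C r) ^ 2 - pf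
        rw [X_dvd_iff, coeff_sub, hcoef, ← C_pow, coeff_C_zero, sub_self]
    · have e7 : ([(X, C r)] : List ((w.adicCompletion ℚ)[X] × (w.adicCompletion ℚ)[X])).map
          (fun p => (-1) ^ p.1.natDegree * p.1) = [-X] := by
        simp
      rw [e7, List.prod_singleton]
      rw [Polynomial.map_mul, Polynomial.map_neg, map_X] at ht
      exact ht

end main

end Pool.Agent.Run7.h594.DI
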