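import Pool.Agent.Run7.h245.DI.Iface
import Pool.Agent.N862.PF.TV
import Pool.Agent.N31.PF.Int

/-!
# Piece TVN of project DI (helper245), by helper594: the converse of TVR
-/

set_option autoImplicit false
set_option linter.all false

open Polynomial IsDedekindDomain Matrix NumberField WithZero
open scoped Classical

namespace Pool.Agent.Run7.h594.DI

open Pool.Agent.Run7.h245.SR
open Pool.Agent.N783.PF
open Pool.Agent.N862.PF
open Pool.Agent.N874.PP (Ev Sq1 U0)

/-- **TVN.** -/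
theorem tvn' (hI : S_INT) : Pool.Agent.Run7.h245.DI.S_TVN := by
  intro g F L _ _ _ _ _ f θ hG hsq m₀ α Λ hα hSD hLat 𝔮 hprime hq0 hD 𝔓 hov
  obtain ⟨x, hx, s, hs, hDm⟩ := hD
  have hint := hI g F L f θ hG hsq
  obtain ⟨t, ht⟩ := theta_ex hG
  obtain ⟨u, hu⟩ := (int_iff _).1 ((hSD x).1 hx)
  set z : 𝓞 L := u - (algebraMap (𝓞 F) (𝓞 L) s) ^ 2 with hz
  obtain ⟨p, hp1, hp2⟩ := ex_poly hI hG hsq ht z
  have hsL : algebraMap (𝓞 L) L (algebraMap (𝓞 F) (𝓞 L) s) = algebraMap F L (s : F) := by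
    rw [← IsScalarTower.algebraMap_apply (𝓞 F) (𝓞 L) L, IsScalarTower.algebraMap_apply (𝓞 F) F L]
  have hzL : algebraMap (𝓞 L) L z = x ^ 2 / α - ((s : F) ^ 2) • (1 : L) := by
    rw [hz, map_sub, hu, map_pow, hsL, Algebra.smul_def, map_pow, mul_one]
  -- the coordinates of `z θ ^ m`
  have htop : ∀ m ≤ 2 * g, ∃ a ∈ 𝔮, (a : F) = hG.top (θ ^ m * algebraMap (𝓞 L) L z) := by
    intro m hm
    obtain ⟨a, ha, hae⟩ := hDm m hm
    refine ⟨a, ha, ?_⟩
    rw [hae, hzL]
    have e1 : θ ^ m * (x ^ 2 / α - ((s : F) ^ 2) • (1 : L)) =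
        θ ^ m * x ^ 2 / α - ((s : F) ^ 2) • θ ^ m := by
      rw [Algebra.smul_def, Algebra.smul_def]
      ring
    rw [e1, map_sub, map_smul, top_pow hG m hm, smul_eq_mul, mul_ite, mul_one, mul_zero]
  have hV : ∀ i : ℕ, ∃ b : 𝓞 F, (b : F) = hG.top (θ ^ i) := by
    intro i
    have h1 := top_int hG hint ((theta_int hG).pow i)
    exact ⟨⟨_, h1⟩, rfl⟩
  choose b hb using hV
  have hinjF : Function.Injective (algebraMap (𝓞 F) F) := IsFractionRing.injective (𝓞 F) F
  have hb0 : ∀ i, i < 2 * g → b i = 0 := by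
    intro i hi
    apply hinjF
    have h1 := hb i
    rw [top_pow hG i hi.le, if_neg hi.ne] at h1
    rw [map_zero]
    exact h1
  have hb1 : b (2 * g) = 1 := by
    apply hinjF
    have h1 := hb (2 * g)
    rw [top_pow hG (2 * g) le_rfl, if_pos rfl] at h1
    rw [map_one]
    exact h1
  have hexp : ∀ m, hG.top (θ ^ m * algebraMap (𝓞 L) L z) =
      algebraMap (𝓞 F) F (∑ i ∈ Finset.range (2 * g + 1), p.coeff i * b (i + m)) := by
    intro m
    have h3 : θ ^ m * algebraMap (𝓞 L) L z = ∑ i ∈ Finset.range (2 * g + 1),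
        ((p.coeff i : 𝓞 F) : F) • θ ^ (i + m) := by
      rw [← hp2, ev_L ht, aeval_def, eval₂_eq_sum_range' (algebraMap (𝓞 F) L) (n := 2 * g + 1),
        Finset.mul_sum]
      · refine Finset.sum_congr rfl fun i _ => ?_
        rw [Algebra.smul_def, IsScalarTower.algebraMap_apply (𝓞 F) F L, pow_add]
        ring
      · by_cases hr0 : p = 0
        · rw [hr0]; simp
        · exact (natDegree_lt_iff_degree_lt hr0).2 hp1
    rw [h3, map_sum, map_sum]
    refine Finset.sum_congr rfl fun i _ => ?_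
    rw [map_mul, map_smul, smul_eq_mul, ← hb (i + m)]
  -- all the coefficients are in `𝔮`
  have hcoef : ∀ k, ∀ i, i ≤ 2 * g → 2 * g - i ≤ k → p.coeff i ∈ 𝔮 := by
    intro k
    induction k using Nat.strong_induction_on with
    | _ k ih =>
      intro i hi hik
      obtain ⟨a, ha, hae⟩ := htop (2 * g - i) (by omega)
      rw [hexp] at hae
      have h1 : a = ∑ j ∈ Finset.range (2 * g + 1), p.coeff j * b (j + (2 * g - i)) :=
        hinjF hae
      have h2 : p.coeff i = a - ∑ j ∈ (Finset.range (2 * g + 1)).erase i,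
          p.coeff j * b (j + (2 * g - i)) := by
        rw [h1, ← Finset.add_sum_erase _ _ (Finset.mem_range.2 (show i < 2 * g + 1 by omega))]
        have h3 : i + (2 * g - i) = 2 * g := by omega
        rw [h3, hb1]
        ring
      rw [h2]
      refine 𝔮.sub_mem ha (Ideal.sum_mem _ fun j hj => ?_)
      rw [Finset.mem_erase, Finset.mem_range] at hj
      rcases lt_or_gt_of_ne hj.1 with h4 | h4
      · rw [hb0 _ (by omega), mul_zero]
        exact 𝔮.zero_mem
      · refine 𝔮.mul_mem_right _ (ih (2 * g - j) (by omega) j (by omega) le_rfl)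
  have hzP : z ∈ 𝔓.asIdeal := by
    rw [← hp2]
    have h1 : ev F t p = ∑ i ∈ Finset.range (2 * g + 1),
        algebraMap (𝓞 F) (𝓞 L) (p.coeff i) * t ^ i := by
      unfold ev
      rw [coe_eval₂RingHom, eval₂_eq_sum_range' (algebraMap (𝓞 F) (𝓞 L)) (n := 2 * g + 1)]
      by_cases hr0 : p = 0
      · rw [hr0]; simp
      · exact (natDegree_lt_iff_degree_lt hr0).2 hp1
    rw [h1]
    refine Ideal.sum_mem _ fun i hi => 𝔓.asIdeal.mul_mem_right _ (hov _ ?_)
    rw [Finset.mem_range] at hi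
    exact hcoef (2 * g) i (by omega) (by omega)
  -- `s` is a unit at `𝔓`
  have hmax : 𝔮.IsMaximal := hprime.isMaximal hq0
  have hsP : algebraMap (𝓞 F) (𝓞 L) s ∉ 𝔓.asIdeal := by
    intro h1
    have h2 : 𝔮 ≤ 𝔓.asIdeal.comap (algebraMap (𝓞 F) (𝓞 L)) := fun a ha => hov a ha
    have h3 : 𝔓.asIdeal.comap (algebraMap (𝓞 F) (𝓞 L)) ≠ ⊤ :=
      Ideal.comap_ne_top _ 𝔓.isPrime.ne_top
    have h4 := hmax.eq_of_le h3 h2
    apply hs
    rw [h4]
    exact h1
  have hvs : 𝔓.valuation L (algebraMap F L (s : F)) = 1 := by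
    rw [← hsL]
    refine le_antisymm (𝔓.valuation_le_one _) (not_lt.1 fun h1 => hsP ?_)
    exact (𝔓.valuation_lt_one_iff_mem (K := L) _).1 h1
  have hvz : 𝔓.valuation L (algebraMap (𝓞 L) L z) < 1 :=
    (𝔓.valuation_lt_one_iff_mem (K := L) _).2 hzP
  have hs0 : algebraMap F L (s : F) ≠ 0 := by
    intro h0
    rw [h0, map_zero] at hvs
    exact zero_ne_one hvs
  have hvα : 𝔓.valuation L α ≠ 0 := (Valuation.ne_zero_iff _).2 hα
  refine ⟨x / algebraMap F L (s : F), ?_⟩
  have e2 : α - (x / algebraMap F L (s : F)) ^ 2 =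
      -(α / (algebraMap F L (s : F)) ^ 2 * algebraMap (𝓞 L) L z) := by
    rw [hzL, Algebra.smul_def, map_pow]
    field_simp
    ring
  rw [e2, Valuation.map_neg, map_mul, map_div₀, map_pow, hvs, one_pow, div_one]
  calc 𝔓.valuation L α * 𝔓.valuation L (algebraMap (𝓞 L) L z)
      < 𝔓.valuation L α * 1 := by
        exact mul_lt_mul_of_pos_left hvz (zero_lt_iff.2 hvα)
    _ = _ := mul_one _

theorem tvn : Pool.Agent.Run7.h245.DI.S_TVN := tvn' Pool.Agent.N31.PF.int

end Pool.Agent.Run7.h594.DI
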