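import Pool.Agent.Run7.h245.DI.Iface

/-!
# Piece TW2 of project DI (helper245), by helper594, part a: triples of coordinates
-/

set_option autoImplicit false
set_option linter.all false

open Polynomial IsDedekindDomain Matrix NumberField
open scoped Classical

namespace Pool.Agent.Run7.h594.DI

open Pool.Agent.N783.PF
open Pool.Agent.Run7.h245.DI (m8 n8 K8)

section triples

variable {R : Type} [CommRing R]

/-- the product of triples, `θ ^ 3 = - A θ - B` -/
def tm (A B : R) (a b : Fin 3 → R) : Fin 3 → R :=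
  ![a 0 * b 0 - B * (a 1 * b 2 + a 2 * b 1),
    a 0 * b 1 + a 1 * b 0 - A * (a 1 * b 2 + a 2 * b 1) - B * (a 2 * b 2),
    a 0 * b 2 + a 1 * b 1 + a 2 * b 0 - A * (a 2 * b 2)]

/-- the matrix of the multiplication -/
def tM (A B : R) (a : Fin 3 → R) : Matrix (Fin 3) (Fin 3) R :=
  !![a 0, -(B * a 2), -(B * a 1);
    a 1, a 0 - A * a 2, -(A * a 1) - B * a 2;
    a 2, a 1, a 0 - A * a 2]

theorem tM_mulVec (A B : R) (a b : Fin 3 → R) : tM A B a *ᵥ b = tm A B a b := by
  ext i
  fin_cases i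
  · simp [tM, tm, Matrix.mulVec, dotProduct, Fin.sum_univ_three]
    ring
  · simp [tM, tm, Matrix.mulVec, dotProduct, Fin.sum_univ_three]
    ring
  · simp [tM, tm, Matrix.mulVec, dotProduct, Fin.sum_univ_three]
    ring

/-- the triple as an element of `ZMod 8 × ZMod 8 × ZMod 8` -/
def tr (ρ : R →+* ZMod 8) (a : Fin 3 → R) : ZMod 8 × ZMod 8 × ZMod 8 := (ρ (a 0), ρ (a 1), ρ (a 2))

theorem tr_tm (ρ : R →+* ZMod 8) {A B : R} (hA : ρ A = 1) (hB : ρ B = 1) (a b : Fin 3 → R) :
    tr ρ (tm A B a b) = m8 (tr ρ a) (tr ρ b) := by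
  unfold tr tm m8
  simp [hA, hB]

theorem n8_tr (ρ : R →+* ZMod 8) {A B : R} (hA : ρ A = 1) (hB : ρ B = 1) (a : Fin 3 → R) :
    ρ (tM A B a).det = n8 (tr ρ a) := by
  unfold tM n8 tr m8
  simp [Matrix.det_fin_three, hA, hB]

theorem tm_adj (A B : R) (a : Fin 3 → R) : ∃ t : Fin 3 → R,
    tm A B a t = ![(tM A B a).det, 0, 0] := by
  refine ⟨(tM A B a).adjugate *ᵥ ![1, 0, 0], ?_⟩
  rw [← tM_mulVec, Matrix.mulVec_mulVec, Matrix.mul_adjugate]
  ext i
  fin_cases i <;> simp [Matrix.smul_mulVec]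

end triples

section field

variable {R F L : Type} [CommRing R] [Field F] [Field L] [Algebra R L] [Algebra F L]

/-- the element with given coordinates -/
def el (θ : L) (a : Fin 3 → R) : L :=
  algebraMap R L (a 0) + algebraMap R L (a 1) * θ + algebraMap R L (a 2) * θ ^ 2

theorem el_tm {A B : R} {θ : L} (hθ : θ ^ 3 + algebraMap R L A * θ + algebraMap R L B = 0)
    (a b : Fin 3 → R) : el θ (tm A B a b) = el θ a * el θ b := by
  unfold el tm
  simp only [map_sub, map_mul, map_add, Matrix.cons_val_zero, Matrix.cons_val_one,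
    Matrix.cons_val]
  linear_combination (-(algebraMap R L (a 1) * algebraMap R L (b 2) +
    algebraMap R L (a 2) * algebraMap R L (b 1)) -
    algebraMap R L (a 2) * algebraMap R L (b 2) * θ) * hθ

end field

end Pool.Agent.Run7.h594.DI
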