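import Pool.Agent.Run7.h594.DI.TW2a
import Pool.Agent.Run7.h228.SR.Com
import Pool.Agent.Run7.h366.SR.GAT
import Pool.Agent.Run7.h576.SR.HEN
import Pool.Agent.N352.PF.Dsc

/-!
# Piece TW2 of project DI (helper245), by helper594, part b
-/

set_option autoImplicit false
set_option linter.all false

open Polynomial IsDedekindDomain Matrix NumberField
open scoped Classical

namespace Pool.Agent.Run7.h594.DI

open Pool.Agent.N783.PF
open Pool.Agent.Run7.h245.DI (m8 n8 K8)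

/-- the reduction modulo `8` -/
noncomputable def ro : 𝓞 ℚ →+* ZMod 8 :=
  (Int.castRingHom (ZMod 8)).comp (Rat.ringOfIntegersEquiv : 𝓞 ℚ →+* ℤ)

theorem ro_surj : Function.Surjective ro := by
  intro z
  obtain ⟨n, hn⟩ := ZMod.intCast_surjective z
  refine ⟨Rat.ringOfIntegersEquiv.symm n, ?_⟩
  unfold ro
  simp [hn]

theorem ro_zero {a : 𝓞 ℚ} (h : ro a = 0) : ∃ b : 𝓞 ℚ, a = 8 * b := by
  unfold ro at h
  simp only [RingHom.comp_apply, RingHom.coe_coe, eq_intCast] at h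
  rw [ZMod.intCast_zmod_eq_zero_iff_dvd] at h
  obtain ⟨k, hk⟩ := h
  refine ⟨Rat.ringOfIntegersEquiv.symm k, ?_⟩
  apply Rat.ringOfIntegersEquiv.injective
  have h8 : Rat.ringOfIntegersEquiv (8 : 𝓞 ℚ) = 8 := map_ofNat _ 8
  rw [map_mul, RingEquiv.apply_symm_apply, hk, h8]
  norm_num

theorem z8_nonunit : ∀ z : ZMod 8, (¬ ∃ w, z * w = 1) → ∃ w, z = 2 * w := by decide

theorem z8_unit : ∀ z : ZMod 8, (∃ w, z * w = 1) → ∃ w, z = 1 + 2 * w := by decide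

theorem z8_sq : ∀ z w : ZMod 8, z * w = 1 → z * z = 1 := by decide

theorem ro_nonunit {m : 𝓞 ℚ} (h : ¬ IsUnit (ro m)) : ∃ b : 𝓞 ℚ, m = 2 * b := by
  rw [isUnit_iff_exists_inv] at h
  obtain ⟨w, hw⟩ := z8_nonunit _ h
  obtain ⟨m', hm'⟩ := ro_surj w
  have h1 : ro (m - 2 * m') = 0 := by
    rw [map_sub, map_mul, map_ofNat, hw, hm', sub_self]
  obtain ⟨b, hb⟩ := ro_zero h1
  refine ⟨m' + 4 * b, ?_⟩
  linear_combination hb

theorem ro_unit {m : 𝓞 ℚ} (h : IsUnit (ro m)) : ∃ b : 𝓞 ℚ, m = 1 + 2 * b := by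
  rw [isUnit_iff_exists_inv] at h
  obtain ⟨w, hw⟩ := z8_unit _ h
  obtain ⟨m', hm'⟩ := ro_surj w
  have h1 : ro (m - 1 - 2 * m') = 0 := by
    rw [map_sub, map_sub, map_mul, map_ofNat, map_one, hw, hm']
    ring
  obtain ⟨b, hb⟩ := ro_zero h1
  refine ⟨m' + 4 * b, ?_⟩
  linear_combination hb

theorem ro_one_of_dvd {a : 𝓞 ℚ} (h : (16 : 𝓞 ℚ) ∣ a - 1) : ro a = 1 := by
  obtain ⟨c, hc⟩ := h
  have h1 : a = 1 + 16 * c := by linear_combination hc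
  rw [h1, map_add, map_one, map_mul, map_ofNat]
  have h2 : (16 : ZMod 8) = 0 := by decide
  rw [h2, zero_mul, add_zero]

section main

variable {L : Type} [Field L] [NumberField L] [Algebra ℚ L] {f : (𝓞 ℚ)[X]} {θ : L}

theorem aL (a : 𝓞 ℚ) : algebraMap (𝓞 ℚ) L a = algebraMap ℚ L (a : ℚ) :=
  IsScalarTower.algebraMap_apply (𝓞 ℚ) ℚ L a

theorem poly3 (p : (𝓞 ℚ)[X]) (hp : p.natDegree < 4) (θ : L) : aeval θ (fF p) =
    algebraMap (𝓞 ℚ) L (p.coeff 0) + algebraMap (𝓞 ℚ) L (p.coeff 1) * θ +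
      algebraMap (𝓞 ℚ) L (p.coeff 2) * θ ^ 2 + algebraMap (𝓞 ℚ) L (p.coeff 3) * θ ^ 3 := by
  have h1 : aeval θ (fF p) = aeval θ p := by
    rw [fF, aeval_def, eval₂_map, aeval_def, ← IsScalarTower.algebraMap_eq]
  rw [h1, aeval_def, eval₂_eq_sum_range' (algebraMap (𝓞 ℚ) L) hp]
  simp [Finset.sum_range_succ]

theorem root3 (hG : IsGen 1 f θ) (h2 : f.coeff 2 = 0) :
    θ ^ 3 + algebraMap (𝓞 ℚ) L (f.coeff 1) * θ + algebraMap (𝓞 ℚ) L (f.coeff 0) = 0 := by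
  have hd := hG.deg
  have h1 := hG.root
  have h3 : f.coeff 3 = 1 := by
    have := hG.mon.coeff_natDegree
    rwa [hd] at this
  rw [poly3 f (by omega) θ, h2, h3, map_zero, map_one] at h1
  linear_combination h1

theorem repr_el (hG : IsGen 1 f θ) (c : Fin 3 → 𝓞 ℚ) (i : Fin 3) :
    hG.basis.repr (el θ c) i = ((c i : 𝓞 ℚ) : ℚ) := by
  have h1 : el θ c = ∑ j : Fin (2 * 1 + 1), (((c j : 𝓞 ℚ) : ℚ)) • hG.basis j := by
    have h2 : ∑ j : Fin (2 * 1 + 1), (((c j : 𝓞 ℚ) : ℚ)) • hG.basis j =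
        ∑ j : Fin 3, (((c j : 𝓞 ℚ) : ℚ)) • hG.basis j := rfl
    rw [h2, Fin.sum_univ_three]
    simp only [hG.basis_apply, Algebra.smul_def]
    unfold el
    rw [aL, aL, aL]
    simp
  rw [h1]
  exact congrFun (hG.basis.repr_sum_self fun j => ((c j : 𝓞 ℚ) : ℚ)) i

theorem norm_el (hG : IsGen 1 f θ) (h2 : f.coeff 2 = 0) (a : Fin 3 → 𝓞 ℚ) :
    Algebra.norm ℚ (el θ a) = algebraMap (𝓞 ℚ) ℚ (tM (f.coeff 1) (f.coeff 0) a).det := by
  have hθ := root3 hG h2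
  rw [Algebra.norm_eq_matrix_det hG.basis, RingHom.map_det]
  congr 1
  ext i j
  rw [Algebra.leftMulMatrix_eq_repr_mul]
  have h3 : hG.basis j = el θ (Pi.single (M := fun _ : Fin 3 => 𝓞 ℚ) j 1) := by
    rw [hG.basis_apply]
    unfold el
    have hj : (j : Fin 3) = 0 ∨ (j : Fin 3) = 1 ∨ (j : Fin 3) = 2 := by
      change (j : Fin 3) = 0 ∨ (j : Fin 3) = 1 ∨ (j : Fin 3) = 2
      revert j
      decide
    rcases hj with h | h | h <;> subst h <;> simp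
  rw [h3, ← el_tm hθ]
  have h4 := repr_el hG (tm (f.coeff 1) (f.coeff 0) a (Pi.single (M := fun _ : Fin 3 => 𝓞 ℚ) j 1)) i
  rw [h4, ← tM_mulVec, Matrix.mulVec_single_one]
  rfl

theorem theta_ex' (hG : IsGen 1 f θ) : ∃ t : 𝓞 L, algebraMap (𝓞 L) L t = θ :=
  (IsIntegralClosure.isIntegral_iff (A := 𝓞 L)).1 (Pool.Agent.N31.PF.theta_int hG)

theorem aLL (a : 𝓞 ℚ) : algebraMap (𝓞 ℚ) L a = algebraMap (𝓞 L) L (algebraMap (𝓞 ℚ) (𝓞 L) a) :=
  IsScalarTower.algebraMap_apply (𝓞 ℚ) (𝓞 L) L a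

/-- a triple gives an integral element -/
theorem el_int (hG : IsGen 1 f θ) (a : Fin 3 → 𝓞 ℚ) : ∃ t : 𝓞 L, algebraMap (𝓞 L) L t = el θ a := by
  obtain ⟨t, ht⟩ := theta_ex' hG
  refine ⟨algebraMap (𝓞 ℚ) (𝓞 L) (a 0) + algebraMap (𝓞 ℚ) (𝓞 L) (a 1) * t +
    algebraMap (𝓞 ℚ) (𝓞 L) (a 2) * t ^ 2, ?_⟩
  unfold el
  rw [map_add, map_add, map_mul, map_mul, map_pow, ht, ← aLL, ← aLL, ← aLL]

theorem val_el_le (hG : IsGen 1 f θ) (a : Fin 3 → 𝓞 ℚ) (𝔓 : HeightOneSpectrum (𝓞 L)) :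
    𝔓.valuation L (el θ a) ≤ 1 := by
  obtain ⟨t, ht⟩ := el_int hG a
  rw [← ht]
  exact 𝔓.valuation_le_one t

theorem val_unit {m : 𝓞 ℚ} (hm : IsUnit (ro m)) (𝔓 : HeightOneSpectrum (𝓞 L))
    (h2 : (2 : 𝓞 L) ∈ 𝔓.asIdeal) : 𝔓.valuation L (algebraMap (𝓞 ℚ) L m) = 1 := by
  rw [aLL]
  refine le_antisymm (𝔓.valuation_le_one _) (not_lt.1 fun h1 => ?_)
  have h3 := (𝔓.valuation_lt_one_iff_mem (K := L) _).1 h1
  obtain ⟨b, hb⟩ := ro_unit hm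
  rw [hb, map_add, map_one, map_mul, map_ofNat] at h3
  apply 𝔓.isPrime.ne_top
  rw [Ideal.eq_top_iff_one]
  have h4 : (1 : 𝓞 L) = (1 + 2 * algebraMap (𝓞 ℚ) (𝓞 L) b) - 2 * algebraMap (𝓞 ℚ) (𝓞 L) b := by ring
  rw [h4]
  exact 𝔓.asIdeal.sub_mem h3 (𝔓.asIdeal.mul_mem_right _ h2)

/-- odd norm gives a unit at `2` -/
theorem val_el (hG : IsGen 1 f θ) (h2 : f.coeff 2 = 0) (s : Fin 3 → 𝓞 ℚ)
    (hs : IsUnit (ro (tM (f.coeff 1) (f.coeff 0) s).det)) (𝔓 : HeightOneSpectrum (𝓞 L))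
    (h2P : (2 : 𝓞 L) ∈ 𝔓.asIdeal) : 𝔓.valuation L (el θ s) = 1 := by
  have hθ := root3 hG h2
  obtain ⟨t, ht⟩ := tm_adj (f.coeff 1) (f.coeff 0) s
  have h1 := el_tm (L := L) hθ s t
  rw [ht] at h1
  have h3 : el θ ![(tM (f.coeff 1) (f.coeff 0) s).det, 0, 0] =
      algebraMap (𝓞 ℚ) L (tM (f.coeff 1) (f.coeff 0) s).det := by
    unfold el
    simp
  rw [h3] at h1
  have h4 := val_unit (L := L) hs 𝔓 h2P
  rw [h1, map_mul] at h4
  have h5 := val_el_le hG s 𝔓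
  have h6 := val_el_le hG t 𝔓
  refine le_antisymm h5 (not_lt.1 fun h7 => ?_)
  have h8 : 𝔓.valuation L (el θ s) * 𝔓.valuation L (el θ t) < 1 := by
    calc 𝔓.valuation L (el θ s) * 𝔓.valuation L (el θ t) ≤ 𝔓.valuation L (el θ s) * 1 := by
          gcongr
      _ < 1 := by rw [mul_one]; exact h7
  rw [h4] at h8
  exact lt_irrefl _ h8

/-- the prime over `2` -/
theorem ex_w : ∃ w : HeightOneSpectrum (𝓞 ℚ), (2 : 𝓞 ℚ) ∈ w.asIdeal := by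
  have h1 : Ideal.span {(2 : 𝓞 ℚ)} ≠ ⊤ := by
    rw [Ne, Ideal.span_singleton_eq_top]
    intro h
    have h3 := h.map ro
    rw [map_ofNat, isUnit_iff_exists_inv] at h3
    revert h3
    decide
  obtain ⟨M, hM, hle⟩ := Ideal.exists_le_maximal _ h1
  have h2 : (2 : 𝓞 ℚ) ∈ M := hle (Ideal.mem_span_singleton_self _)
  refine ⟨⟨M, hM.isPrime, ?_⟩, h2⟩
  rintro rfl
  rw [Ideal.mem_bot] at h2
  exact two_ne_zero h2

theorem unit_of_not_mem {w : HeightOneSpectrum (𝓞 ℚ)} (h2 : (2 : 𝓞 ℚ) ∈ w.asIdeal) {m : 𝓞 ℚ}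
    (hm : m ∉ w.asIdeal) : IsUnit (ro m) := by
  by_contra h
  obtain ⟨b, hb⟩ := ro_nonunit h
  apply hm
  rw [hb]
  exact w.asIdeal.mul_mem_right _ h2

/-- the form of `f` -/
theorem f_form (hG : IsGen 1 f θ) (h2 : f.coeff 2 = 0) :
    f = X ^ 3 + C (f.coeff 1) * X + C (f.coeff 0) := by
  have hd := hG.deg
  have h3 : f.coeff 3 = 1 := by
    have := hG.mon.coeff_natDegree
    rwa [hd] at this
  conv_lhs => rw [f.as_sum_range_C_mul_X_pow, hd]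
  simp only [Finset.sum_range_succ, Finset.sum_range_zero, h2, h3]
  simp
  ring

theorem rd_sep (hG : IsGen 1 f θ) (h2 : f.coeff 2 = 0) (hB : (16 : 𝓞 ℚ) ∣ f.coeff 0 - 1)
    {w : HeightOneSpectrum (𝓞 ℚ)} (hw : (2 : 𝓞 ℚ) ∈ w.asIdeal) : (rd w.asIdeal f).Separable := by
  have e1 : rd w.asIdeal f = X ^ 3 + C (Ideal.Quotient.mk w.asIdeal (f.coeff 1)) * X +
      C (Ideal.Quotient.mk w.asIdeal (f.coeff 0)) := by
    conv_lhs => rw [rd, f_form hG h2]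
    simp
  have e2 : Ideal.Quotient.mk w.asIdeal (f.coeff 0) = 1 := by
    obtain ⟨c, hc⟩ := hB
    have h4 : f.coeff 0 = 1 + 2 * (8 * c) := by linear_combination hc
    rw [h4, map_add, map_one, map_mul, Ideal.Quotient.eq_zero_iff_mem.2 hw, zero_mul, add_zero]
  have e3 : (2 : (𝓞 ℚ ⧸ w.asIdeal)[X]) = 0 := by
    have h5 : Ideal.Quotient.mk w.asIdeal (2 : 𝓞 ℚ) = 0 := Ideal.Quotient.eq_zero_iff_mem.2 hw
    rw [map_ofNat] at h5
    have h6 : (2 : (𝓞 ℚ ⧸ w.asIdeal)[X]) = C (2 : 𝓞 ℚ ⧸ w.asIdeal) := (map_ofNat C 2).symm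
    rw [h6, h5, C_0]
  rw [e1, e2]
  refine ⟨1, -X, ?_⟩
  have hd : derivative (X ^ 3 + C (Ideal.Quotient.mk w.asIdeal (f.coeff 1)) * X + C 1 :
      (𝓞 ℚ ⧸ w.asIdeal)[X]) = 3 * X ^ 2 + C (Ideal.Quotient.mk w.asIdeal (f.coeff 1)) := by
    simp
    have h7 : (C (2 : 𝓞 ℚ ⧸ w.asIdeal) : (𝓞 ℚ ⧸ w.asIdeal)[X]) = 2 := map_ofNat C 2
    rw [h7]
    norm_num
  rw [hd, C_1]
  linear_combination (-X ^ 3) * e3

/-- coordinates after multiplication by an odd number -/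
theorem coords (hG : IsGen 1 f θ) (h2 : f.coeff 2 = 0) (hB : (16 : 𝓞 ℚ) ∣ f.coeff 0 - 1) (x : L)
    (hx : ∀ 𝔓 : HeightOneSpectrum (𝓞 L), (2 : 𝓞 L) ∈ 𝔓.asIdeal → 𝔓.valuation L x ≤ 1) :
    ∃ (m : 𝓞 ℚ) (a : Fin 3 → 𝓞 ℚ), IsUnit (ro m) ∧ algebraMap (𝓞 ℚ) L m * x = el θ a := by
  obtain ⟨w, hw⟩ := ex_w
  have hdsc := Pool.Agent.Run7.h228.SR.dsc_not w Pool.Agent.N352.PF.dscT le_rfl hG.mon hG.deg
    (rd_sep hG h2 hB hw)
  obtain ⟨m, hm, a, ha⟩ := Pool.Agent.Run7.h366.SR.gat 1 ℚ L f θ hG w hdsc x (by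
    intro 𝔓 hov
    refine hx 𝔓 ?_
    have := hov 2 hw
    rwa [map_ofNat] at this)
  refine ⟨m, ![(a %ₘ f).coeff 0, (a %ₘ f).coeff 1, (a %ₘ f).coeff 2], unit_of_not_mem hw hm, ?_⟩
  rw [aL, ha]
  have h3 : aeval θ (fF a) = aeval θ (fF (a %ₘ f)) := by
    have e := modByMonic_add_div a f
    conv_lhs => rw [← e]
    rw [fF, Polynomial.map_add, Polynomial.map_mul, map_add, map_mul]
    have hr := hG.root
    rw [fF] at hr
    rw [hr, zero_mul, add_zero]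
  have hdeg : (a %ₘ f).natDegree < 3 := by
    have := natDegree_modByMonic_lt a hG.mon (by
      intro h1
      have h5 := hG.deg
      rw [h1, natDegree_one] at h5
      omega)
    rwa [hG.deg] at this
  rw [h3, poly3 _ (by omega) θ, coeff_eq_zero_of_natDegree_lt hdeg]
  unfold el
  simp

/-- the invariant -/
theorem inv8 (hG : IsGen 1 f θ) (h2 : f.coeff 2 = 0) (hA : (16 : 𝓞 ℚ) ∣ f.coeff 1 - 1)
    (hB : (16 : 𝓞 ℚ) ∣ f.coeff 0 - 1) (x : L) (hx0 : x ≠ 0)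
    (hx : ∀ 𝔓 : HeightOneSpectrum (𝓞 L), (2 : 𝓞 L) ∈ 𝔓.asIdeal → 𝔓.valuation L x = 1)
    (hN : IsSquare (Algebra.norm ℚ x)) :
    ∃ (a : Fin 3 → 𝓞 ℚ) (m : 𝓞 ℚ), IsUnit (ro m) ∧ (algebraMap (𝓞 ℚ) L m) ^ 2 * x = el θ a ∧
      n8 (tr ro a) = 1 := by
  have hθ := root3 hG h2
  have hA1 := ro_one_of_dvd hA
  have hB1 := ro_one_of_dvd hB
  obtain ⟨m, a, hm, ha⟩ := coords hG h2 hB x fun 𝔓 h => (hx 𝔓 h).le
  obtain ⟨m', a', hm', ha'⟩ := coords hG h2 hB x⁻¹ fun 𝔓 h => by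
    rw [map_inv₀, hx 𝔓 h, inv_one]
  set A := f.coeff 1
  set B := f.coeff 0
  have hinjQ : Function.Injective (algebraMap (𝓞 ℚ) ℚ) := IsFractionRing.injective (𝓞 ℚ) ℚ
  have hinjL : Function.Injective (algebraMap (𝓞 ℚ) L) := by
    rw [IsScalarTower.algebraMap_eq (𝓞 ℚ) ℚ L]
    exact (algebraMap ℚ L).injective.comp hinjQ
  -- the determinant of `a` is odd
  have hprod : el θ a * el θ a' = algebraMap (𝓞 ℚ) L (m * m') := by
    rw [← ha, ← ha', map_mul]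
    field_simp
  have hdet : (tM A B a).det * (tM A B a').det = (m * m') ^ 3 := by
    apply hinjQ
    rw [map_mul, ← norm_el hG h2 a, ← norm_el hG h2 a', ← map_mul, hprod, aL]
    have h3 : Module.finrank ℚ L = 3 := hG.rank
    rw [Algebra.norm_algebraMap, h3, map_pow]
  have hu : IsUnit (ro (tM A B a).det) := by
    have h4 : IsUnit (ro ((tM A B a).det * (tM A B a').det)) := by
      rw [hdet, map_pow, map_mul]
      exact (hm.mul hm').pow 3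
    rw [map_mul] at h4
    exact isUnit_of_mul_isUnit_left h4
  -- the element `m a`
  refine ⟨fun i => m * a i, m, hm, ?_, ?_⟩
  · have h5 : el θ (fun i => m * a i) = algebraMap (𝓞 ℚ) L m * el θ a := by
      unfold el
      simp only [map_mul]
      ring
    rw [h5, ← ha]
    ring
  · rw [← n8_tr ro hA1 hB1]
    have h6 : (tM A B fun i => m * a i).det = m ^ 3 * (tM A B a).det := by
      have h7 : (tM A B fun i => m * a i) = m • tM A B a := by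
        ext i j
        fin_cases i <;> fin_cases j <;> simp [tM] <;> ring
      rw [h7, Matrix.det_smul, Fintype.card_fin]
    obtain ⟨r, hr⟩ := hN
    have h8 : algebraMap (𝓞 ℚ) ℚ (tM A B fun i => m * a i).det =
        (algebraMap (𝓞 ℚ) ℚ m ^ 3 * r) ^ 2 := by
      have h9 : algebraMap (𝓞 ℚ) ℚ (tM A B a).det = algebraMap (𝓞 ℚ) ℚ m ^ 3 * (r * r) := by
        rw [← norm_el hG h2 a, ← ha, map_mul, hr, aL, Algebra.norm_algebraMap]
        have h3 : Module.finrank ℚ L = 3 := hG.rank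
        rw [h3]
      rw [h6, map_mul, map_pow, h9]
      ring
    have h10 : IsIntegral ℤ (algebraMap (𝓞 ℚ) ℚ m ^ 3 * r) := by
      have h11 : IsIntegral ℤ ((algebraMap (𝓞 ℚ) ℚ m ^ 3 * r) ^ 2) := by
        rw [← h8]
        exact (IsIntegralClosure.isIntegral_iff (A := 𝓞 ℚ)).2 ⟨_, rfl⟩
      exact IsIntegral.of_pow two_pos h11
    obtain ⟨e, he⟩ := (IsIntegralClosure.isIntegral_iff (A := 𝓞 ℚ)).1 h10
    have h12 : (tM A B fun i => m * a i).det = e ^ 2 := by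
      apply hinjQ
      rw [h8, ← he, map_pow]
    have h13 : IsUnit (ro ((tM A B fun i => m * a i).det)) := by
      rw [h6, map_mul, map_pow]
      exact (hm.pow 3).mul hu
    rw [h12, map_pow] at h13 ⊢
    have h14 : IsUnit (ro e) := (isUnit_pow_iff two_ne_zero).1 h13
    rw [isUnit_iff_exists_inv] at h14
    obtain ⟨z, hz⟩ := h14
    rw [sq]
    exact z8_sq _ _ hz

end main

end Pool.Agent.Run7.h594.DI
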